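import Mathlib
import Pool.Agent.V11152.PlaneSubdiv2
import Pool.Agent.V11152.ProjGeom3

/-!
# A finest matroid subdivision of the hypersimplex `Δ(3, 13)` with a decomposable maximal cell

`IsMatroid`, `indic`, `poly` and `IsMatroidSubdivision` are defined in
`Pool.Agent.V11152.MatroidSubdiv`, `Refines` and `IsFinest` in `Pool.Agent.V11152.PlaneSubdiv`.
-/

namespace Pool.Agent.Results.MP_6a4d09_co.DecomposableCell

open Finset Pool.Agent.V11152.MatroidSubdiv Pool.Agent.V11152.PlaneSubdiv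
  Pool.Agent.V11152.ProjGeom

/-- The bases of the uniform matroid `U_{k,n}`; `poly (unif k n)` is the hypersimplex
`Δ(k, n)`. -/
def unif (k n : ℕ) : Finset (Finset (Fin n)) := Finset.univ.filter (fun B => B.card = k)

/-- `N` is indecomposable: every matroid subdivision of `poly N` has `poly N` as a cell -/
def Indecomposable {E : Type} [DecidableEq E] (N : Finset (Finset E)) : Prop :=
  ∀ S : Set (Finset (Finset E)), IsMatroidSubdivision N S → N ∈ S

/-- `N` is a maximal cell of `S` -/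
def IsMaximalCell {E : Type} [DecidableEq E] (S : Set (Finset (Finset E)))
    (N : Finset (Finset E)) : Prop :=
  N ∈ S ∧ ∀ N' ∈ S, poly N ⊆ poly N' → poly N' = poly N

/-- vectors of the points of the projective plane of order three -/
def ph : Fin 13 → (Fin 3 → ZMod 3) :=
  ![![1, 0, 0], ![0, 1, 0], ![0, 0, 1], ![2, 1, 0], ![0, 2, 1], ![2, 1, 2], ![1, 1, 1], ![2, 2, 1],
    ![2, 0, 2], ![1, 1, 0], ![0, 1, 1], ![2, 1, 1], ![2, 0, 1]]

/-- the lines -/
def line (j : Fin 13) : Finset (Fin 13) := ({0, 1, 3, 9} : Finset (Fin 13)).image (· + j)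

/-- all lines -/
def lines : Finset (Finset (Fin 13)) := Finset.univ.image line

/-- the point of a vector -/
def pt (v : Fin 3 → ZMod 3) : Fin 13 :=
  ((List.finRange 13).find? (fun i => ph i = v ∨ ph i = -v)).getD 0

lemma pt_spec : ∀ v : Fin 3 → ZMod 3, v ≠ 0 → ph (pt v) = v ∨ ph (pt v) = -v := by
  decide +kernel

lemma pt_ph : ∀ e : Fin 13, pt (ph e) = e := by decide +kernel

lemma ph_ne : ∀ e : Fin 13, ph e ≠ 0 := by decide +kernel

instance : Fact (Nat.Prime 3) := ⟨by norm_num⟩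

lemma geo : Geo (F := ZMod 3) ph pt := by
  refine ⟨?_, pt_ph, ph_ne⟩
  intro v hv
  rcases pt_spec v hv with h | h
  · rw [h]
  · rw [h, Submodule.span_singleton_eq_span_singleton]
    exact ⟨-1, by simp⟩

lemma isPlane : IsPlane lines := by
  have k1 : ∀ j : Fin 13, (line j).card = 4 := by decide +kernel
  have k2 : ∀ x y : Fin 13, x ≠ y → ∃ j : Fin 13, x ∈ line j ∧ y ∈ line j := by decide +kernel
  have k3 : ∀ j j' : Fin 13, j ≠ j' → (line j ∩ line j').card ≤ 1 := by decide +kernel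
  refine ⟨?_, ?_, ?_⟩
  · intro L hL
    obtain ⟨j, _, rfl⟩ := Finset.mem_image.1 hL
    exact k1 j
  · intro x y hxy
    obtain ⟨j, hj⟩ := k2 x y hxy
    exact ⟨line j, Finset.mem_image_of_mem _ (Finset.mem_univ j), hj⟩
  · intro L hL L' hL' hne
    obtain ⟨j, _, rfl⟩ := Finset.mem_image.1 hL
    obtain ⟨j', _, rfl⟩ := Finset.mem_image.1 hL'
    exact k3 j j' (fun h => hne (by rw [h]))

lemma lineA : ∀ f : Fin 3 → ZMod 3, f ≠ 0 → ∃ j : Fin 13, ∀ x : Fin 13,
    f 0 * ph x 0 + f 1 * ph x 1 + f 2 * ph x 2 = 0 → x ∈ line j := by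
  decide +kernel

lemma lineB : ∀ j : Fin 13, ∃ f : Fin 3 → ZMod 3, f ≠ 0 ∧ ∀ x ∈ line j,
    f 0 * ph x 0 + f 1 * ph x 1 + f 2 * ph x 2 = 0 := by
  decide +kernel

lemma mem_iff (B : Finset (Fin 13)) :
    B ∈ MP lines ↔ B.card = 3 ∧ W (F := ZMod 3) ph B = ⊤ := by
  rw [mem_MP]
  apply and_congr_right
  intro hB
  constructor
  · intro h
    by_contra hne
    obtain ⟨f, hf0, hf⟩ := Submodule.exists_le_ker_of_lt_top _ (lt_top_iff_ne_top.2 hne)
    have hfe : ∀ v : Fin 3 → ZMod 3, f v = f (Pi.single 0 1) * v 0 + f (Pi.single 1 1) * v 1 +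
        f (Pi.single 2 1) * v 2 := by
      intro v
      have e : v = v 0 • (Pi.single 0 1 : Fin 3 → ZMod 3) + v 1 • (Pi.single 1 1) +
          v 2 • (Pi.single 2 1) := by
        funext i
        fin_cases i <;> simp
      conv_lhs => rw [e]
      rw [map_add, map_add, map_smul, map_smul, map_smul]
      simp only [smul_eq_mul]
      ring
    have hg : (![f (Pi.single 0 1), f (Pi.single 1 1), f (Pi.single 2 1)] : Fin 3 → ZMod 3) ≠ 0 := by
      intro h0
      apply hf0
      apply LinearMap.ext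
      intro v
      rw [hfe v]
      have e0 := congrFun h0 0
      have e1 := congrFun h0 1
      have e2 := congrFun h0 2
      simp only [Matrix.cons_val_zero, Matrix.cons_val_one, Matrix.cons_val, Pi.zero_apply] at e0 e1 e2
      rw [e0, e1, e2]
      simp
    obtain ⟨j, hj⟩ := lineA _ hg
    apply h (line j) (Finset.mem_image_of_mem _ (Finset.mem_univ j))
    intro x hx
    apply hj x
    have := hf (phi_mem (F := ZMod 3) ph hx)
    rw [LinearMap.mem_ker, hfe] at this
    exact this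
  · intro h L hL hBL
    obtain ⟨j, _, rfl⟩ := Finset.mem_image.1 hL
    obtain ⟨g, hg0, hg⟩ := lineB j
    let f : (Fin 3 → ZMod 3) →ₗ[ZMod 3] ZMod 3 :=
      g 0 • LinearMap.proj 0 + g 1 • LinearMap.proj 1 + g 2 • LinearMap.proj 2
    have hfe : ∀ v, f v = g 0 * v 0 + g 1 * v 1 + g 2 * v 2 := fun v => by simp [f]
    have hle : W (F := ZMod 3) ph B ≤ LinearMap.ker f := by
      rw [W_le]
      intro x hx
      rw [LinearMap.mem_ker, hfe]
      exact hg x (hBL hx)
    rw [h] at hle
    apply hg0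
    funext i
    have h1 : ∀ i, f (Pi.single i 1) = 0 := fun i => LinearMap.mem_ker.1 (hle trivial)
    fin_cases i
    · have := h1 0; rw [hfe] at this; simpa using this
    · have := h1 1; rw [hfe] at this; simpa using this
    · have := h1 2; rw [hfe] at this; simpa using this

lemma small : ∀ L ∈ lines, ∃ B ∈ MP lines, (B ∩ L).card < 2 := by
  intro L hL
  obtain ⟨j, _, rfl⟩ := Finset.mem_image.1 hL
  have key : ∀ j : Fin 13, ∃ x y z : Fin 13, ({x, y, z} : Finset (Fin 13)).card = 3 ∧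
      (∀ j' : Fin 13, ¬ ({x, y, z} : Finset (Fin 13)) ⊆ line j') ∧
      (({x, y, z} : Finset (Fin 13)) ∩ line j).card < 2 := by decide +kernel
  obtain ⟨x, y, z, h1, h2, h3⟩ := key j
  refine ⟨{x, y, z}, (mem_MP _).2 ⟨h1, ?_⟩, h3⟩
  intro L hL
  obtain ⟨j', _, rfl⟩ := Finset.mem_image.1 hL
  exact h2 j'

/-- **Theorem.** There is a finest matroid subdivision of the hypersimplex `Δ(3, 13)` having a
maximal cell which is the polytope of a decomposable matroid. -/
theorem result : ∃ S : Set (Finset (Finset (Fin 13))), IsFinest (unif 3 13) S ∧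
    ∃ N : Finset (Finset (Fin 13)), IsMaximalCell S N ∧ ¬ Indecomposable N := by
  obtain ⟨B0, hB0, _⟩ := exists_base geo mem_iff 0
  have hM : IsMatroid (MP lines) := isMatroid (F := ZMod 3) mem_iff ⟨B0, hB0⟩
  have hInd : ∀ S, IsMatroidSubdivision (MP lines) S → MP lines ∈ S := fun S hS =>
    mem_subdivision geo mem_iff (le_refl 3) hS
  have h0 := plane_subdivision isPlane hM
  obtain ⟨S, hS, href⟩ := exists_finest h0
  refine ⟨S, hS, ?_⟩
  have hL : line 0 ∈ lines := Finset.mem_image_of_mem _ (Finset.mem_univ 0)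
  have ho : ∃ o, o ∉ line 0 := by decide +kernel
  obtain ⟨N, hN, hmax, h1, h2, h3⟩ := exists_cell_L isPlane hM hInd small hS.1 href hL ho
  refine ⟨N, ⟨hN, fun N' hN' hle => ?_⟩, ?_⟩
  · rw [hmax N' hN' (subset_of_poly hle)]
  · obtain ⟨S', hS', hNS'⟩ := decomposable (hS.1.1 N hN) (isPlane.four _ hL) ho h1 h2 h3
    exact fun h => hNS' (h S' hS')

end Pool.Agent.Results.MP_6a4d09_co.DecomposableCell
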